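import Pool.Agent.Helper55.SCH.Goals

set_option autoImplicit false

/-!
# Project SCH: the relation W
-/

namespace Pool.Agent.Helper20.SCH

open Finset Pool.Agent.Helper55.SCH

theorem sum_shift (f : ℕ → ℝ) {a b : ℕ} (h : a ≤ b) :
    ∑ x ∈ Ico (a + 1) (b + 1), f x = ∑ x ∈ Ico a b, f x + f b - f a := by
  have h1 := Finset.sum_Ico_succ_top h f
  have h2 := Finset.sum_eq_sum_Ico_succ_bot (show a < b + 1 by omega) f
  linarith

theorem lip (s t : ℝ) (h : |s - t| ≤ 1) : |max (-s) 0 - max (-t) 0| ≤ 1 := by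
  rw [abs_le] at h ⊢
  constructor
  · rcases le_total (-t) 0 with h1 | h1
    · rw [max_eq_right h1]
      have := le_max_right (-s) 0
      linarith
    · rw [max_eq_left h1]
      have := le_max_left (-s) 0
      linarith
  · rcases le_total (-s) 0 with h1 | h1
    · rw [max_eq_right h1]
      have := le_max_right (-t) 0
      linarith
    · rw [max_eq_left h1]
      have := le_max_left (-t) 0
      linarith

theorem goalDW : G_DW := by
  intro hH hT c u lam s r hc hu v hv
  have lam1 := hc.lam1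
  have lam0 : 0 < lam := by linarith
  obtain ⟨H1, -, -, -, H5, -, -, -⟩ := hH lam lam0
  have hs : ∀ x, |s x| ≤ 1 := by
    intro x
    by_cases hx : x ∈ Icc 1 c
    · rw [hc.hs x hx, abs_neg]
      exact H1 _
    · rw [hc.s0 x hx]
      simp
  have hr : ∀ x, |r x| ≤ 1 := by
    intro x
    by_cases hx : x ∈ Icc 1 u
    · rw [hc.hr x hx, abs_neg]
      exact H1 _
    · rw [hc.r0 x hx]
      simp
  -- densities
  have as0 : ∀ x, 0 ≤ al s x ∧ al s x ≤ 1 := fun x => by
    have := abs_le.1 (hs x)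
    unfold al
    constructor <;> linarith
  have ar0 : ∀ x, 0 ≤ al r x ∧ al r x ≤ 1 := fun x => by
    have := abs_le.1 (hr x)
    unfold al
    constructor <;> linarith
  have P0 : ∀ x, 0 ≤ al s x * al r x ∧ al s x * al r x ≤ 1 := fun x => by
    obtain ⟨h1, h2⟩ := as0 x
    obtain ⟨h3, h4⟩ := ar0 x
    constructor
    · positivity
    · nlinarith
  set h := u / 2 with hh
  have hhu : h ≤ u := Nat.div_le_self _ _
  have hb : h + 1 ≤ u := by omega
  obtain ⟨T1, T2⟩ := hT c u lam s r hc 1 (h + 1) le_rfl (by omega) hb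
  set A := w1 u s r (h + 1) with hA
  set B := w1 u s r 1 with hB
  -- the ends
  have eB : |(S s u + S r u) - B| ≤ 1 := by
    have h1 : S s u = S s (u - 1) + s u := by
      obtain ⟨k, rfl⟩ : ∃ k, u = k + 1 := ⟨u - 1, by omega⟩
      unfold S
      rw [Finset.sum_Icc_succ_top (by omega)]
      simp
    have h2 : S s 0 = 0 := by simp [S]
    have h3 : B = S s (u - 1) + S s 0 + S r u := rfl
    rw [h3, h1, h2]
    have : S s (u - 1) + s u + S r u - (S s (u - 1) + 0 + S r u) = s u := by ring
    rw [this]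
    exact hs u
  have eA : |(2 * S s h + S r u) - A| ≤ 1 := by
    have h3 : A = S s (u - (h + 1)) + S s h + S r u := rfl
    rw [h3]
    rcases Nat.even_or_odd' u with ⟨k, hk | hk⟩
    · have e1 : u - (h + 1) = h - 1 := by omega
      have e2 : S s h = S s (h - 1) + s h := by
        obtain ⟨j, hj⟩ : ∃ j, h = j + 1 := ⟨h - 1, by omega⟩
        rw [hj]
        unfold S
        rw [Finset.sum_Icc_succ_top (by omega)]
        simp
      rw [e1]
      have : 2 * S s h + S r u - (S s (h - 1) + S s h + S r u) = s h := by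
        rw [e2]; ring
      rw [this]
      exact hs h
    · have e1 : u - (h + 1) = h := by omega
      rw [e1]
      have : 2 * S s h + S r u - (S s h + S s h + S r u) = 0 := by ring
      rw [this]
      simp
  have fH : ∀ t, |max (-t) 0 - (Hub lam t - t) / 2| ≤ lam / 4 := by
    intro t
    have h1 := H5 t
    have h2 : max (-t) 0 = (|t| - t) / 2 := by
      rcases le_total t 0 with h3 | h3
      · rw [abs_of_nonpos h3, max_eq_left (by linarith)]; ring
      · rw [abs_of_nonneg h3, max_eq_right (by linarith)]; ring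
    rw [h2, abs_le]
    constructor <;> linarith [h1.1, h1.2]
  -- the sums
  have sumh : ∀ f : ℕ → ℝ, ∑ x ∈ Ico 1 (h + 1), f (u - x) = ∑ x ∈ Ico (u - h) u, f x := by
    intro f
    have := Finset.sum_Ico_reflect f 1 (m := h + 1) (n := u) (by omega)
    rw [this]
    congr 1
    congr 1
    omega
  have X1 : v.x1 = ∑ x ∈ Ico 1 (h + 1), al s x * al r x := by
    rw [hv]
    show ∑ x ∈ Icc 1 (u / 2), al s x * al r x = _
    rfl
  have N2 : v.n2 = ∑ x ∈ Ico 1 (u + 1), al s x * al r x := by
    rw [hv]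
    show ∑ x ∈ Icc 1 u, al s x * al r x = _
    rfl
  have N3 : v.n2 - v.x1 = ∑ x ∈ Ico (h + 1) (u + 1), al s x * al r x := by
    rw [X1, N2]
    have := Finset.sum_Ico_consecutive (fun x => al s x * al r x) (show 1 ≤ h + 1 by omega)
      (show h + 1 ≤ u + 1 by omega)
    linarith
  have N4 : |(v.n2 - v.x1) - ∑ x ∈ Ico (u - h) u, al s x * al r x| ≤ 1 := by
    rw [N3]
    rcases Nat.even_or_odd' u with ⟨k, hk | hk⟩
    · have e1 : u - h = h := by omega
      rw [e1, sum_shift (fun x => al s x * al r x) hhu]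
      have h1 := P0 u
      have h2 := P0 h
      have : ∑ x ∈ Ico h u, al s x * al r x + al s u * al r u - al s h * al r h -
          ∑ x ∈ Ico h u, al s x * al r x = al s u * al r u - al s h * al r h := by ring
      rw [this, abs_le]
      constructor <;> linarith [h1.1, h1.2, h2.1, h2.2]
    · have e1 : u - h = h + 1 := by omega
      rw [e1, Finset.sum_Ico_succ_top hb]
      have h1 := P0 u
      have : ∑ x ∈ Ico (h + 1) u, al s x * al r x + al s u * al r u -
          ∑ x ∈ Ico (h + 1) u, al s x * al r x = al s u * al r u := by ring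
      rw [this, abs_of_nonneg h1.1]
      exact h1.2
  have R1 : |∑ x ∈ Ico 1 (h + 1), al r x - ∑ x ∈ Ico (u - h) u, al r x| ≤ 1 := by
    have e1 : ∑ x ∈ Ico 1 (h + 1), al r x = ∑ x ∈ Ico 1 (h + 1), al r (u + 1 - x) := by
      refine Finset.sum_congr rfl fun x hx => ?_
      rw [Finset.mem_Ico] at hx
      unfold al
      rw [hc.rs x (Finset.mem_Icc.2 ⟨hx.1, by omega⟩)]
    have e2 := Finset.sum_Ico_reflect (al r) 1 (m := h + 1) (n := u + 1) (by omega)
    have e3 : u + 1 + 1 - (h + 1) = (u - h) + 1 := by omega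
    have e4 : u + 1 + 1 - 1 = u + 1 := by omega
    rw [e1, e2, e3, e4, sum_shift (al r) (show u - h ≤ u by omega)]
    have h1 := ar0 u
    have h2 := ar0 (u - h)
    have : ∑ x ∈ Ico (u - h) u, al r x + al r u - al r (u - h) -
        ∑ x ∈ Ico (u - h) u, al r x = al r u - al r (u - h) := by ring
    rw [this, abs_le]
    constructor <;> linarith [h1.1, h1.2, h2.1, h2.2]
  -- the main identity
  have I1 : ∑ x ∈ Ico 1 (h + 1), r x * s x =
      4 * ∑ x ∈ Ico 1 (h + 1), al s x * al r x - 2 * ∑ x ∈ Ico 1 (h + 1), al r x -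
        ∑ x ∈ Ico 1 (h + 1), s x := by
    rw [mul_sum, mul_sum, ← Finset.sum_sub_distrib, ← Finset.sum_sub_distrib]
    refine Finset.sum_congr rfl fun x _ => ?_
    unfold al
    ring
  have I2 : ∑ x ∈ Ico (u - h) u, r x * s x =
      4 * ∑ x ∈ Ico (u - h) u, al s x * al r x - 2 * ∑ x ∈ Ico (u - h) u, al r x -
        ∑ x ∈ Ico (u - h) u, s x := by
    rw [mul_sum, mul_sum, ← Finset.sum_sub_distrib, ← Finset.sum_sub_distrib]
    refine Finset.sum_congr rfl fun x _ => ?_
    unfold al
    ring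
  have T1' : A - B = ∑ x ∈ Ico 1 (h + 1), s x - ∑ x ∈ Ico (u - h) u, s x := by
    rw [T1, Finset.sum_sub_distrib, sumh s]
  rw [sumh (fun x => r x * s x)] at T2
  have hcast : ((h + 1 : ℕ) : ℝ) - ((1 : ℕ) : ℝ) = h := by push_cast; ring
  rw [hcast] at T2
  have hle : (h : ℝ) ≤ c := by
    have : h ≤ c := hhu.trans hc.hu
    exact_mod_cast this
  have E1 : 4 * (h : ℝ) / lam ≤ 4 * (c / lam) := by
    rw [mul_div_assoc]
    have : (h : ℝ) / lam ≤ c / lam := by gcongr
    linarith
  have c0 : 0 ≤ (c : ℝ) / lam := by positivity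
  have wm : v.wmn = max (-(2 * S s h + S r u)) 0 := by
    rw [hv]
    rfl
  have w0 : v.w0n = max (-(S s u + S r u)) 0 := by
    rw [hv]
    rfl
  have L1 := lip _ _ eA
  have L2 := lip _ _ eB
  have L3 := fH A
  have L4 := fH B
  rw [← wm] at L1
  rw [← w0] at L2
  rw [← X1] at I1
  rw [I1, I2] at T2
  rw [abs_le] at *
  constructor <;> linarith [L1.1, L1.2, L2.1, L2.2, L3.1, L3.2, L4.1, L4.2, T2.1, T2.2, N4.1,
    N4.2, R1.1, R1.2]

end Pool.Agent.Helper20.SCH
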